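import Pool.Agent.N408.IB.Stm

set_option autoImplicit false

/-! Supporting trigonometric functions (helper344). -/

namespace N344.IB.SUP2

open IB408 Real

lemma pow4_le {d : ℝ} (hd : |d| ≤ 1) : |d| ^ 4 ≤ d ^ 2 := by
  rw [← sq_abs d]
  exact pow_le_pow_of_le_one (abs_nonneg d) hd (by norm_num)

lemma pow5_le {d : ℝ} (hd : |d| ≤ 1) : |d| ^ 5 ≤ d ^ 2 := by
  rw [← sq_abs d]
  exact pow_le_pow_of_le_one (abs_nonneg d) hd (by norm_num)

lemma pow3_le {d : ℝ} (hd : |d| ≤ 1) : |d| ^ 3 ≤ d ^ 2 := by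
  rw [← sq_abs d]
  exact pow_le_pow_of_le_one (abs_nonneg d) hd (by norm_num)

/-- `1 - cos d` for small `d` -/
lemma one_sub_cos_ge {d : ℝ} (hd : |d| ≤ 1) : (11 / 25) * d ^ 2 ≤ 1 - cos d := by
  have h1 := Real.cos_bound hd
  have h2 := (abs_le.1 h1).2
  have h3 := pow4_le hd
  have h4 := sq_nonneg d
  linarith

lemma sub_sin_le {d : ℝ} (hd : |d| ≤ 1) : |d - sin d| ≤ (9 / 50) * d ^ 2 := by
  have h1 := Real.sin_bound hd
  have h2 := pow5_le hd
  have h3 := pow3_le hd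
  have h4 := sq_nonneg d
  have h6 : d - sin d = -(sin d - (d - d ^ 3 / 6)) + d ^ 3 / 6 := by ring
  rw [h6]
  refine (abs_add_le _ _).trans ?_
  rw [abs_neg, abs_div, abs_pow, abs_of_pos (show (0 : ℝ) < 6 by norm_num)]
  linarith

theorem t (h1 : S_SUP1) : IB408.S_SUP2 := by
  intro h hP ψ₀
  obtain ⟨hcont, -, hper, hbd, hsec⟩ := hP
  obtain ⟨m, hm⟩ := h1 h (2 / 5) (by norm_num) hcont hsec ψ₀
  have hbd1 : ∀ ψ, 99 / 100 ≤ h ψ := fun ψ => by
    have := (abs_le.1 (hbd ψ)).1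
    linarith
  have hbd2 : ∀ ψ, h ψ ≤ 101 / 100 := fun ψ => by
    have := (abs_le.1 (hbd ψ)).2
    linarith
  have hm1 : m ≤ 127 / 1000 := by
    have e1 := hm (3 / 10)
    have e2 := hbd1 ψ₀
    have e3 := hbd2 (ψ₀ + 3 / 10)
    norm_num at e1
    linarith
  have hm2 : -(127 / 1000) ≤ m := by
    have e1 := hm (-(3 / 10))
    have e2 := hbd1 ψ₀
    have e3 := hbd2 (ψ₀ + -(3 / 10))
    norm_num at e1 e3
    linarith
  have hm3 : |m| ≤ 127 / 1000 := abs_le.2 ⟨hm2, hm1⟩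
  have h0l := hbd1 ψ₀
  have h0u := hbd2 ψ₀
  -- the inequality for small angles
  have key : ∀ d, |d| ≤ π → h ψ₀ * cos d + m * sin d ≤ h (ψ₀ + d) := by
    intro d hd
    rcases le_total |d| 1 with hd1 | hd1
    · have e1 := hm d
      have e2 := one_sub_cos_ge hd1
      have e3 := sub_sin_le hd1
      have e4 := sq_nonneg d
      have e5 : h ψ₀ * ((11 / 25) * d ^ 2) ≤ h ψ₀ * (1 - cos d) :=
        mul_le_mul_of_nonneg_left e2 (by linarith)
      have e6 : (99 / 100) * ((11 / 25) * d ^ 2) ≤ h ψ₀ * ((11 / 25) * d ^ 2) :=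
        mul_le_mul_of_nonneg_right h0l (by positivity)
      have e7 : |m * (d - sin d)| ≤ (127 / 1000) * ((9 / 50) * d ^ 2) := by
        rw [abs_mul]
        exact mul_le_mul hm3 e3 (abs_nonneg _) (by norm_num)
      have e8 := (abs_le.1 e7).1
      have e9 : h ψ₀ * cos d + m * sin d =
          h ψ₀ + m * d - h ψ₀ * (1 - cos d) - m * (d - sin d) := by ring
      rw [e9]
      nlinarith
    · have e1 : cos d ≤ 5 / 9 := by
        rw [← Real.cos_abs d]
        refine (Real.cos_le_cos_of_nonneg_of_le_pi (by norm_num) hd hd1).trans ?_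
        exact Real.cos_one_le
      have e2 : h ψ₀ * cos d ≤ (101 / 100) * (5 / 9) := by
        rcases le_total 0 (cos d) with h5 | h5
        · exact mul_le_mul h0u e1 h5 (by norm_num)
        · have : h ψ₀ * cos d ≤ 0 := mul_nonpos_of_nonneg_of_nonpos (by linarith) h5
          linarith
      have e3 : m * sin d ≤ 127 / 1000 := by
        have h6 : |m * sin d| ≤ (127 / 1000) * 1 := by
          rw [abs_mul]
          exact mul_le_mul hm3 (Real.abs_sin_le_one d) (abs_nonneg _) (by norm_num)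
        linarith [(abs_le.1 h6).2]
      have e4 := hbd1 (ψ₀ + d)
      linarith
  refine ⟨h ψ₀ * cos ψ₀ - m * sin ψ₀, h ψ₀ * sin ψ₀ + m * cos ψ₀, fun ψ => ?_, ?_⟩
  · -- reduction to a period
    have hp : Function.Periodic h (2 * π) := hper
    have hpi := Real.pi_pos
    obtain ⟨k, hk⟩ : ∃ k : ℤ, k = round ((ψ - ψ₀) / (2 * π)) := ⟨_, rfl⟩
    have h2 := abs_sub_round ((ψ - ψ₀) / (2 * π))
    rw [← hk] at h2
    have h3 : |ψ - ψ₀ - k * (2 * π)| ≤ π := by
      have e1 : ψ - ψ₀ - k * (2 * π) = ((ψ - ψ₀) / (2 * π) - k) * (2 * π) := by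
        field_simp
      rw [e1, abs_mul, abs_of_pos (show 0 < 2 * π by positivity)]
      calc |(ψ - ψ₀) / (2 * π) - k| * (2 * π) ≤ 1 / 2 * (2 * π) :=
            mul_le_mul_of_nonneg_right h2 (by positivity)
        _ = π := by ring
    have h4 := key _ h3
    have e2 : ψ₀ + (ψ - ψ₀ - k * (2 * π)) = ψ - k * (2 * π) := by ring
    have e3 : h (ψ - k * (2 * π)) = h ψ := (hp.int_mul k).sub_eq ψ
    have e4 : cos (ψ - ψ₀ - k * (2 * π)) = cos (ψ - ψ₀) := Real.cos_sub_int_mul_two_pi _ _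
    have e5 : sin (ψ - ψ₀ - k * (2 * π)) = sin (ψ - ψ₀) := Real.sin_sub_int_mul_two_pi _ _
    rw [e2, e3, e4, e5, Real.cos_sub, Real.sin_sub] at h4
    refine le_trans (le_of_eq ?_) h4
    ring
  · have h5 := Real.sin_sq_add_cos_sq ψ₀
    calc (h ψ₀ * cos ψ₀ - m * sin ψ₀) * cos ψ₀ + (h ψ₀ * sin ψ₀ + m * cos ψ₀) * sin ψ₀
        = h ψ₀ * (sin ψ₀ ^ 2 + cos ψ₀ ^ 2) := by ring
      _ = h ψ₀ := by rw [h5, mul_one]

end N344.IB.SUP2
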